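import Pool.Agent.Flex.Chain

/-!
# Q2: 2-degenerate graphs with lists of size 3 are not flexible

For every `m` there is a 2-degenerate graph with lists of size 3 and a request on `m` vertices of
which every list colouring satisfies at most one.
-/

set_option autoImplicit false

namespace Pool.Agent.Results.MP_1bc7ab_co.NotFlexible

open Pool.Agent.Flex

/-- The graph `G` is `d`-degenerate: every non-empty set `S` of vertices contains a vertex with at
most `d` neighbours in `S`. -/
def Degenerate {V : Type} (d : ℕ) (G : SimpleGraph V) : Prop :=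
  ∀ S : Finset V, S.Nonempty → ∃ v ∈ S, ({u : V | u ∈ S ∧ G.Adj v u}).ncard ≤ d

/-- `φ` is an `L`-colouring of `G`. -/
def IsListColoring {V : Type} (G : SimpleGraph V) (L : V → Finset ℕ) (φ : V → ℕ) : Prop :=
  (∀ v, φ v ∈ L v) ∧ ∀ u v, G.Adj u v → φ u ≠ φ v

/-- The request `r` with domain `dom` is `ε`-satisfiable: some `L`-colouring agrees with `r` on at
least `ε * |dom|` vertices of `dom`. -/
def Satisfiable {V : Type} (G : SimpleGraph V) (L : V → Finset ℕ) (dom : Finset V) (r : V → ℕ)
    (ε : ℝ) : Prop :=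
  ∃ φ, IsListColoring G L φ ∧ ε * (dom.card : ℝ) ≤ ((dom.filter fun v => φ v = r v).card : ℝ)

/-- For every `m` there are a 2-degenerate graph on `8 m + 1` vertices, lists of size 3 and a
request on `m` vertices of which no `L`-colouring satisfies more than one; so the request is not
`ε`-satisfiable for any `ε > 1 / m`. -/
theorem result (m : ℕ) :
    ∃ (G : SimpleGraph (Fin (8 * m + 1))) (L : Fin (8 * m + 1) → Finset ℕ)
      (dom : Finset (Fin (8 * m + 1))) (r : Fin (8 * m + 1) → ℕ),
      Degenerate 2 G ∧ (∀ v, (L v).card = 3) ∧ (∀ v ∈ dom, r v ∈ L v) ∧ dom.card = m ∧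
      (∀ φ, IsListColoring G L φ → (dom.filter fun v => φ v = r v).card ≤ 1) ∧
      ∀ ε : ℝ, 1 < ε * m → ¬ Satisfiable G L dom r ε := by
  have key : ∀ φ, IsListColoring (chain (8 * m + 1)) (fun v => lst v.1) φ →
      ((dom m).filter fun v => φ v = 1).card ≤ 1 := fun φ hφ => card_le_one m φ hφ.1 hφ.2
  refine ⟨chain (8 * m + 1), fun v => lst v.1, dom m, fun _ => 1,
    fun S hS => chain_degenerate _ S hS, fun v => lst_card v.1, ?_, dom_card m, key, ?_⟩
  · intro v hv
    have h7 : v.1 % 8 = 7 := by simpa [dom] using hv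
    simp [lst, h7]
  · rintro ε hε ⟨φ, hφ, h⟩
    have h1 : (((dom m).filter fun v => φ v = 1).card : ℝ) ≤ 1 := by exact_mod_cast key φ hφ
    rw [dom_card] at h
    linarith

end Pool.Agent.Results.MP_1bc7ab_co.NotFlexible
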